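import Mathlib
set_option autoImplicit false
open scoped ENNReal

namespace Pool.Agent.Helper872.Iso

theorem norm_proj_le {B : Type*} [CStarAlgebra B] (p : B) (h1 : p * p = p) (h2 : star p = p) :
    ‖p‖ ≤ 1 := by
  have h3 : ‖p‖ * ‖p‖ = ‖p‖ := by
    have := CStarRing.norm_star_mul_self (x := p)
    rw [h2, h1] at this
    exact this.symm
  by_contra h
  push Not at h
  nlinarith [norm_nonneg p]

section iso
variable {V W : Type} [Fintype V] [Fintype W]

/-- Two pairs of vertices stand in the same relation (equal / adjacent / distinct and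
non-adjacent). -/
def SameRel (G : SimpleGraph V) (H : SimpleGraph W) (g g' : V) (h h' : W) : Prop :=
  (g = g' ↔ h = h') ∧ (G.Adj g g' ↔ H.Adj h h')

/-- The defining relations of the isomorphism game algebra, for a family `q` of elements of a
unital `*`-algebra `B`. -/
def IsoGameRel (G : SimpleGraph V) (H : SimpleGraph W) {B : Type*} [Semiring B] [Star B]
    (q : V → W → B) : Prop :=
  (∀ g h, q g h * q g h = q g h ∧ star (q g h) = q g h) ∧
  (∀ g, ∑ h, q g h = 1) ∧ (∀ h, ∑ g, q g h = 1) ∧
  ∀ g g' h h', ¬ SameRel G H g g' h h' → q g h * q g' h' = 0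

/-- `A`, with the family `p`, is the isomorphism game algebra `𝒜(G,H)`: the universal unital
C*-algebra generated by elements `p_{gh}` subject to the relations `IsoGameRel`.  That is: the
relations hold, `A` is generated by the `p_{gh}` as a C*-algebra, and every family satisfying the
relations in a C*-algebra `B` is the image of `p` under a unital `*`-homomorphism `A → B`. -/
def IsGameAlgebra (G : SimpleGraph V) (H : SimpleGraph W) (A : Type 1) [CStarAlgebra A]
    (p : V → W → A) : Prop :=
  IsoGameRel G H p ∧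
  (∀ S : StarSubalgebra ℂ A, IsClosed (S : Set A) → (∀ g h, p g h ∈ S) → S = ⊤) ∧
  ∀ (B : Type) [CStarAlgebra B] (q : V → W → B), IsoGameRel G H q →
    ∃ φ : A →⋆ₐ[ℂ] B, ∀ g h, φ (p g h) = q g h

/-- All families satisfying the relations in nonzero C*-algebras. -/
structure GameRep (G : SimpleGraph V) (H : SimpleGraph W) where
  B : Type
  [cstar : CStarAlgebra B]
  [nt : Nontrivial B]
  q : V → W → B
  rel : IsoGameRel G H q

attribute [instance] GameRep.cstar GameRep.nt

/-- The generator `p_{gh}`: the tuple of all its realisations. -/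
noncomputable def gen (G : SimpleGraph V) (H : SimpleGraph W) (g : V) (h : W) :
    lp (fun r : GameRep G H => r.B) ∞ :=
  ⟨fun r => r.q g h, memℓp_infty ⟨1, by
    rintro _ ⟨r, rfl⟩
    exact norm_proj_le _ (r.rel.1 g h).1 (r.rel.1 g h).2⟩⟩

/-- The isomorphism game algebra `𝒜(G,H)`: the C*-algebra (closed `*`-subalgebra of the bounded
product of all realisations) generated by the universal tuple `(p_{gh})`. -/
noncomputable def gameAlgebra (G : SimpleGraph V) (H : SimpleGraph W) :
    StarSubalgebra ℂ (lp (fun r : GameRep G H => r.B) ∞) :=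
  (StarAlgebra.adjoin ℂ (Set.range fun x : V × W => gen G H x.1 x.2)).topologicalClosure

/-- the generator as an element of the algebra -/
noncomputable def pgen (G : SimpleGraph V) (H : SimpleGraph W) (g : V) (h : W) :
    gameAlgebra G H :=
  ⟨gen G H g h, StarSubalgebra.le_topologicalClosure _
    (StarAlgebra.subset_adjoin ℂ _ ⟨(g, h), rfl⟩)⟩

end iso

section group

/-- `A`, with the unitaries `u_γ`, is the full group C*-algebra `C*(Γ)`: it is generated by the
`u_γ` as a C*-algebra, and every unitary representation `π` of `Γ` in a C*-algebra `B` is the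
composition of `u` with a unital `*`-homomorphism `A → B`. -/
def IsGroupCStar (Γ : Type) [Group Γ] (A : Type 1) [CStarAlgebra A] (u : Γ →* unitary A) : Prop :=
  (∀ S : StarSubalgebra ℂ A, IsClosed (S : Set A) → (∀ γ, (u γ : A) ∈ S) → S = ⊤) ∧
  ∀ (B : Type) [CStarAlgebra B] (π : Γ →* unitary B),
    ∃ φ : A →⋆ₐ[ℂ] B, ∀ γ, φ (u γ) = π γ

/-- Unitary representations of a group in nonzero C*-algebras. -/
structure GroupRep (Γ : Type) [Group Γ] where
  B : Type
  [cstar : CStarAlgebra B]
  [nt : Nontrivial B]
  π : Γ →* unitary B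

attribute [instance] GroupRep.cstar GroupRep.nt

/-- The universal unitary `u_γ`: the tuple of the `π(γ)` over all unitary representations `π`. -/
noncomputable def ugen (Γ : Type) [Group Γ] (γ : Γ) : lp (fun r : GroupRep Γ => r.B) ∞ :=
  ⟨fun r => (r.π γ : r.B), memℓp_infty ⟨1, by
    rintro _ ⟨r, rfl⟩
    exact (CStarRing.norm_coe_unitary (r.π γ)).le⟩⟩

/-- The full group C*-algebra `C*(Γ)`: the closure of the group algebra in the universal norm
`sup_π ‖π(·)‖`. -/
noncomputable def groupCStar (Γ : Type) [Group Γ] :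
    StarSubalgebra ℂ (lp (fun r : GroupRep Γ => r.B) ∞) :=
  (StarAlgebra.adjoin ℂ (Set.range (ugen Γ))).topologicalClosure

/-- the unitary `u_γ` as an element of `C*(Γ)` -/
noncomputable def uel (Γ : Type) [Group Γ] (γ : Γ) : groupCStar Γ :=
  ⟨ugen Γ γ, StarSubalgebra.le_topologicalClosure _ (StarAlgebra.subset_adjoin ℂ _ ⟨γ, rfl⟩)⟩

end group

/-! ### Proofs of the universal properties -/

/-- The bounded product (`ℓ^∞`-direct sum) of a family of nonzero C*-algebras is a C*-algebra. -/
noncomputable abbrev lpCStar {I : Type*} {A : I → Type*} [∀ i, Nontrivial (A i)]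
    [∀ i, CStarAlgebra (A i)] : CStarAlgebra (lp A ∞) where

section eval
variable {I : Type*} {A : I → Type*} [∀ i, Nontrivial (A i)] [∀ i, CStarAlgebra (A i)]

/-- evaluation at a coordinate -/
noncomputable def evalHom (i : I) : lp A ∞ →⋆ₐ[ℂ] A i where
  toFun x := x i
  map_one' := rfl
  map_mul' _ _ := rfl
  map_zero' := rfl
  map_add' _ _ := rfl
  commutes' _ := rfl
  map_star' _ := rfl

end eval

open scoped CStarAlgebra in
/-- star homomorphisms between C*-algebras are continuous -/
theorem cont_hom {A B : Type*} [CStarAlgebra A] [CStarAlgebra B] (φ : A →⋆ₐ[ℂ] B) :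
    Continuous φ := map_continuous φ

/-- star homomorphisms from a closed subalgebra of a product are continuous -/
theorem cont_sub {I : Type*} {A : I → Type*} [∀ i, Nontrivial (A i)] [∀ i, CStarAlgebra (A i)]
    (S : StarSubalgebra ℂ (lp A ∞)) (hS : IsClosed (S : Set (lp A ∞))) {B : Type*}
    [CStarAlgebra B] (φ : S →⋆ₐ[ℂ] B) : Continuous φ := by
  letI : CStarAlgebra (lp A ∞) := lpCStar
  letI : CStarAlgebra S := StarSubalgebra.cstarAlgebra S (h_closed := hS)
  exact cont_hom φ

section univ
variable {V W : Type} [Fintype V] [Fintype W]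

/-- evaluation of an element of the game algebra at a realisation -/
noncomputable def evalGA {G : SimpleGraph V} {H : SimpleGraph W} (r : GameRep G H) :
    gameAlgebra G H →⋆ₐ[ℂ] r.B :=
  (evalHom (A := fun r : GameRep G H => r.B) r).comp (gameAlgebra G H).subtype

theorem ga_ext {G : SimpleGraph V} {H : SimpleGraph W} {x y : gameAlgebra G H}
    (h : ∀ r, evalGA r x = evalGA r y) : x = y :=
  Subtype.ext (Subtype.ext (funext h))

theorem evalGA_pgen {G : SimpleGraph V} {H : SimpleGraph W} (r : GameRep G H) (g : V) (h : W) :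
    evalGA r (pgen G H g h) = r.q g h := rfl

theorem pgen_rel (G : SimpleGraph V) (H : SimpleGraph W) : IsoGameRel G H (pgen G H) := by
  refine ⟨fun g h => ⟨?_, ?_⟩, fun g => ?_, fun h => ?_, fun g g' h h' hne => ?_⟩
  · refine ga_ext fun r => ?_
    rw [map_mul, evalGA_pgen]
    exact (r.rel.1 g h).1
  · refine ga_ext fun r => ?_
    rw [map_star, evalGA_pgen]
    exact (r.rel.1 g h).2
  · refine ga_ext fun r => ?_
    rw [map_sum, map_one]
    simp only [evalGA_pgen]
    exact r.rel.2.1 g
  · refine ga_ext fun r => ?_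
    rw [map_sum, map_one]
    simp only [evalGA_pgen]
    exact r.rel.2.2.1 h
  · refine ga_ext fun r => ?_
    rw [map_mul, evalGA_pgen, evalGA_pgen, map_zero]
    exact r.rel.2.2.2 g g' h h' hne

/-- The universal property of `𝒜(G,H)`. -/
theorem gameAlgebra_universal (G : SimpleGraph V) (H : SimpleGraph W) {B : Type} [CStarAlgebra B]
    (q : V → W → B) (hq : IsoGameRel G H q) :
    ∃! φ : gameAlgebra G H →⋆ₐ[ℂ] B, ∀ g h, φ (pgen G H g h) = q g h := by
  rcases subsingleton_or_nontrivial B with hB | hB
  · refine ⟨⟨⟨⟨⟨⟨fun _ => 0, Subsingleton.elim _ _⟩, fun _ _ => Subsingleton.elim _ _⟩,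
      Subsingleton.elim _ _, fun _ _ => Subsingleton.elim _ _⟩, fun _ => Subsingleton.elim _ _⟩,
      fun _ => Subsingleton.elim _ _⟩, fun _ _ => Subsingleton.elim _ _, ?_⟩
    intro φ _
    ext x
    exact Subsingleton.elim _ _
  · refine ⟨evalGA (⟨B, q, hq⟩ : GameRep G H), fun g h => rfl, ?_⟩
    intro φ hφ
    have hcl : IsClosed (gameAlgebra G H : Set (lp (fun r : GameRep G H => r.B) ∞)) :=
      StarSubalgebra.isClosed_topologicalClosure _
    have hc1 : Continuous φ := cont_sub _ hcl φ
    have hc2 : Continuous (evalGA (⟨B, q, hq⟩ : GameRep G H)) := cont_sub _ hcl _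
    refine StarAlgHom.ext_topologicalClosure hc1 hc2 ?_
    refine StarAlgHom.ext_adjoin ?_
    rintro ⟨x, hx0⟩ ⟨⟨g, h⟩, hx⟩
    subst hx
    exact hφ g h

/-- a closed subalgebra of the closed subalgebra generated by `X` containing `X` is everything -/
theorem closed_gen {L : Type*} [NormedRing L] [StarRing L] [NormedAlgebra ℂ L] [StarModule ℂ L]
    (C : StarSubalgebra ℂ L) (X : Set L) (hCc : IsClosed (C : Set L)) (hXC : X ⊆ C)
    (hmin : ∀ T : StarSubalgebra ℂ L, IsClosed (T : Set L) → X ⊆ T → C ≤ T)
    (S : StarSubalgebra ℂ C) (hS : IsClosed (S : Set C))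
    (hX : ∀ x (hx : x ∈ X), (⟨x, hXC hx⟩ : C) ∈ S) : S = ⊤ := by
  have hT : IsClosed ((S.map C.subtype : StarSubalgebra ℂ L) : Set L) := by
    have h := hCc.isClosedEmbedding_subtypeVal.isClosedMap (S : Set C) hS
    exact h
  have h2 : C ≤ S.map C.subtype := by
    refine hmin _ hT ?_
    intro x hx
    exact ⟨⟨x, hXC hx⟩, hX x hx, rfl⟩
  rw [eq_top_iff]
  intro x _
  obtain ⟨y, hy, hyx⟩ := h2 x.2
  have : y = x := Subtype.ext hyx
  rwa [← this]

theorem min_closure {L : Type*} [NormedRing L] [StarRing L] [NormedAlgebra ℂ L] [StarModule ℂ L]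
    [ContinuousStar L] (X : Set L) (T : StarSubalgebra ℂ L) (hT : IsClosed (T : Set L))
    (hX : X ⊆ T) : (StarAlgebra.adjoin ℂ X).topologicalClosure ≤ T :=
  StarSubalgebra.topologicalClosure_minimal (StarAlgebra.adjoin_le hX) hT

/-- existence of the game algebra -/
theorem exists_gameAlgebra (G : SimpleGraph V) (H : SimpleGraph W) :
    ∃ (A : Type 1) (_ : CStarAlgebra A) (p : V → W → A), IsGameAlgebra G H A p := by
  have hcl : IsClosed (gameAlgebra G H : Set (lp (fun r : GameRep G H => r.B) ∞)) :=
    StarSubalgebra.isClosed_topologicalClosure _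
  letI : CStarAlgebra (lp (fun r : GameRep G H => r.B) ∞) := lpCStar
  refine ⟨gameAlgebra G H, StarSubalgebra.cstarAlgebra (gameAlgebra G H) (h_closed := hcl),
    pgen G H, pgen_rel G H, ?_, fun B _ q hq => ?_⟩
  · intro S hS hp
    refine closed_gen (gameAlgebra G H) (Set.range fun x : V × W => gen G H x.1 x.2) hcl
      (fun x hx => StarSubalgebra.le_topologicalClosure _ (StarAlgebra.subset_adjoin ℂ _ hx))
      (fun T hT hX => min_closure _ T hT hX) S hS ?_
    rintro _ ⟨⟨g, h⟩, rfl⟩
    exact hp g h
  · obtain ⟨φ, hφ, -⟩ := gameAlgebra_universal G H q hq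
    exact ⟨φ, hφ⟩

end univ

section group

/-- evaluation of an element of the group algebra at a representation -/
noncomputable def evalUA {Γ : Type} [Group Γ] (r : GroupRep Γ) :
    groupCStar Γ →⋆ₐ[ℂ] r.B :=
  (evalHom (A := fun r : GroupRep Γ => r.B) r).comp (groupCStar Γ).subtype

/-- The universal property of `C*(Γ)`. -/
theorem groupCStar_universal (Γ : Type) [Group Γ] {B : Type} [CStarAlgebra B]
    (π : Γ →* unitary B) :
    ∃! φ : groupCStar Γ →⋆ₐ[ℂ] B, ∀ γ, φ (uel Γ γ) = π γ := by
  rcases subsingleton_or_nontrivial B with hB | hB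
  · refine ⟨⟨⟨⟨⟨⟨fun _ => 0, Subsingleton.elim _ _⟩, fun _ _ => Subsingleton.elim _ _⟩,
      Subsingleton.elim _ _, fun _ _ => Subsingleton.elim _ _⟩, fun _ => Subsingleton.elim _ _⟩,
      fun _ => Subsingleton.elim _ _⟩, fun _ => Subsingleton.elim _ _, ?_⟩
    intro φ _
    ext x
    exact Subsingleton.elim _ _
  · refine ⟨evalUA (⟨B, π⟩ : GroupRep Γ), fun γ => rfl, ?_⟩
    intro φ hφ
    have hcl : IsClosed (groupCStar Γ : Set (lp (fun r : GroupRep Γ => r.B) ∞)) :=
      StarSubalgebra.isClosed_topologicalClosure _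
    have hc1 : Continuous φ := cont_sub _ hcl φ
    have hc2 : Continuous (evalUA (⟨B, π⟩ : GroupRep Γ)) := cont_sub _ hcl _
    refine StarAlgHom.ext_topologicalClosure hc1 hc2 ?_
    refine StarAlgHom.ext_adjoin ?_
    rintro ⟨x, hx0⟩ ⟨γ, hx⟩
    subst hx
    exact hφ γ

theorem ua_ext {Γ : Type} [Group Γ] {x y : groupCStar Γ}
    (h : ∀ r, evalUA r x = evalUA r y) : x = y :=
  Subtype.ext (Subtype.ext (funext h))

theorem evalUA_uel {Γ : Type} [Group Γ] (r : GroupRep Γ) (γ : Γ) :
    evalUA r (uel Γ γ) = r.π γ := rfl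

/-- existence of the full group C*-algebra -/
theorem exists_groupCStar (Γ : Type) [Group Γ] :
    ∃ (A : Type 1) (_ : CStarAlgebra A) (u : Γ →* unitary A), IsGroupCStar Γ A u := by
  have hcl : IsClosed (groupCStar Γ : Set (lp (fun r : GroupRep Γ => r.B) ∞)) :=
    StarSubalgebra.isClosed_topologicalClosure _
  letI : CStarAlgebra (lp (fun r : GroupRep Γ => r.B) ∞) := lpCStar
  have hu : ∀ γ, uel Γ γ ∈ unitary (groupCStar Γ) := by
    intro γ
    rw [Unitary.mem_iff]
    constructor
    · refine ua_ext fun r => ?_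
      rw [map_mul, map_star, evalUA_uel, map_one]
      exact Unitary.star_mul_self_of_mem (r.π γ).2
    · refine ua_ext fun r => ?_
      rw [map_mul, map_star, evalUA_uel, map_one]
      exact Unitary.mul_star_self_of_mem (r.π γ).2
  let u : Γ →* unitary (groupCStar Γ) :=
    { toFun := fun γ => ⟨uel Γ γ, hu γ⟩
      map_one' := by
        refine Subtype.ext (ua_ext fun r => ?_)
        change evalUA r (uel Γ 1) = evalUA r 1
        rw [evalUA_uel, map_one, map_one]
        rfl
      map_mul' := by
        intro a b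
        refine Subtype.ext (ua_ext fun r => ?_)
        change evalUA r (uel Γ (a * b)) = evalUA r (uel Γ a * uel Γ b)
        rw [map_mul, evalUA_uel, evalUA_uel, evalUA_uel, map_mul]
        rfl }
  refine ⟨groupCStar Γ, StarSubalgebra.cstarAlgebra (groupCStar Γ) (h_closed := hcl), u, ?_,
    fun B _ π => ?_⟩
  · intro S hS hp
    refine closed_gen (groupCStar Γ) (Set.range (ugen Γ)) hcl
      (fun x hx => StarSubalgebra.le_topologicalClosure _ (StarAlgebra.subset_adjoin ℂ _ hx))
      (fun T hT hX => min_closure _ T hT hX) S hS ?_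
    rintro _ ⟨γ, rfl⟩
    exact hp γ
  · obtain ⟨φ, hφ, -⟩ := groupCStar_universal Γ π
    exact ⟨φ, hφ⟩

end group

section magic

/-- right-hand sides of the magic square system (rows `0,1,2`, columns `3,4,5`): all even, except
the last column if `odd` -/
def rhs (odd : Bool) (k : Fin 6) : Bool := odd && decide (k = 5)

/-- the value given to the `i`-th variable of equation `k` by its `x`-th solution -/
def bit (odd : Bool) (k : Fin 6) (x : Fin 4) (i : Fin 3) : Bool :=
  if i = 0 then x.val.testBit 0 else if i = 1 then x.val.testBit 1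
  else xor (xor (x.val.testBit 0) (x.val.testBit 1)) (rhs odd k)

/-- the cell of the `3 × 3` square containing the `i`-th variable of equation `k` -/
def cell (k : Fin 6) (i : Fin 3) : ℕ := if k.val < 3 then 3 * k.val + i.val else
  3 * i.val + (k.val - 3)

/-- two partial solutions are inconsistent -/
def conflict (odd : Bool) (v w : Fin 6 × Fin 4) : Bool :=
  decide (∃ i j, cell v.1 i = cell w.1 j ∧ bit odd v.1 v.2 i ≠ bit odd w.1 w.2 j)

theorem conflict_symm : ∀ (odd : Bool) (v w : Fin 6 × Fin 4), conflict odd v w = true →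
    conflict odd w v = true := by decide +kernel

theorem conflict_irrefl : ∀ (odd : Bool) (v : Fin 6 × Fin 4), conflict odd v v = false := by
  decide +kernel

/-- the graph of partial solutions of the magic square system; adjacency is inconsistency -/
def msGraph (odd : Bool) : SimpleGraph (Fin 6 × Fin 4) where
  Adj v w := conflict odd v w = true
  symm := ⟨fun v w h => conflict_symm odd v w h⟩
  loopless := ⟨fun v h => by
    have := conflict_irrefl odd v
    rw [this] at h
    exact Bool.noConfusion h⟩

end magic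

end Pool.Agent.Helper872.Iso
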