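import Mathlib
import Pool.Agent.Helper872.Iso.Defs
set_option autoImplicit false
open scoped ENNReal CStarAlgebra

namespace Pool.Agent.Helper872.Iso

section matrices

abbrev M4 := Matrix (Fin 4) (Fin 4) ℤ

def XI : M4 := !![0,0,1,0; 0,0,0,1; 1,0,0,0; 0,1,0,0]
def IX : M4 := !![0,1,0,0; 1,0,0,0; 0,0,0,1; 0,0,1,0]
def XX : M4 := !![0,0,0,1; 0,0,1,0; 0,1,0,0; 1,0,0,0]
def IZ : M4 := !![1,0,0,0; 0,-1,0,0; 0,0,1,0; 0,0,0,-1]
def ZI : M4 := !![1,0,0,0; 0,1,0,0; 0,0,-1,0; 0,0,0,-1]
def ZZ : M4 := !![1,0,0,0; 0,-1,0,0; 0,0,-1,0; 0,0,0,1]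
def XZ : M4 := !![0,0,1,0; 0,0,0,-1; 1,0,0,0; 0,-1,0,0]
def ZX : M4 := !![0,1,0,0; 1,0,0,0; 0,0,0,-1; 0,0,-1,0]
def YY : M4 := !![0,0,0,-1; 0,0,1,0; 0,1,0,0; -1,0,0,0]

/-- the first observable of each equation -/
def ob1 : Fin 6 → M4 := ![XI, IZ, XZ, XI, IX, XX]
/-- the second observable of each equation -/
def ob2 : Fin 6 → M4 := ![IX, ZI, ZX, IZ, ZI, ZZ]

/-- four times the joint spectral projection -/
def FF (k : Fin 6) (z : Fin 4) : M4 :=
  (1 + (if z.val.testBit 0 then -1 else 1 : ℤ) • ob1 k) *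
    (1 + (if z.val.testBit 1 then -1 else 1 : ℤ) • ob2 k)

theorem FF_sq : ∀ k z, FF k z * FF k z = 4 • FF k z := by decide +kernel
theorem FF_tr : ∀ k z, (FF k z).transpose = FF k z := by decide +kernel
theorem FF_sum : ∀ k, FF k 0 + FF k 1 + FF k 2 + FF k 3 = 4 • (1 : M4) := by decide +kernel
theorem FF_orth : ∀ k z k' z', conflict true (k, z) (k', z') = true → FF k z * FF k' z' = 0 := by
  decide +kernel

/-- addition of partial solutions -/
def xo (x y : Fin 4) : Fin 4 := ⟨(x.val ^^^ y.val) % 4, Nat.mod_lt _ (by norm_num)⟩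

theorem rel_conflict : ∀ k k' : Fin 6, ∀ x x' y y' : Fin 4,
    ¬ (((k, x) = (k', x') ↔ (k, y) = (k', y')) ∧
      (conflict true (k, x) (k', x') = true ↔ conflict false (k, y) (k', y') = true)) →
    conflict true (k, xo x y) (k', xo x' y') = true := by decide +kernel

end matrices


section rep
open scoped Matrix.Norms.L2Operator

abbrev MC := Matrix (Fin 4) (Fin 4) ℂ

/-- integer matrices to complex matrices -/
noncomputable def cast4 : M4 →+* MC := (Int.castRingHom ℂ).mapMatrix

theorem cast4_star (A : M4) (h : A.transpose = A) : star (cast4 A) = cast4 A := by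
  rw [Matrix.star_eq_conjTranspose]
  ext i j
  have h1 : A j i = A i j := by
    conv_lhs => rw [← h]
    rfl
  simp only [cast4, RingHom.mapMatrix_apply, Matrix.conjTranspose_apply, Matrix.map_apply]
  rw [h1]
  simp

/-- the spectral projections -/
noncomputable def PP (k : Fin 6) (z : Fin 4) : MC := (1 / 4 : ℂ) • cast4 (FF k z)

theorem PP_sq (k : Fin 6) (z : Fin 4) : PP k z * PP k z = PP k z := by
  simp only [PP]
  rw [smul_mul_smul_comm, ← map_mul, FF_sq, map_nsmul, ← Nat.cast_smul_eq_nsmul ℂ, smul_smul]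
  norm_num

theorem PP_star (k : Fin 6) (z : Fin 4) : star (PP k z) = PP k z := by
  simp only [PP]
  rw [star_smul, cast4_star _ (FF_tr k z)]
  simp

theorem PP_orth (k k' : Fin 6) (z z' : Fin 4) (h : conflict true (k, z) (k', z') = true) :
    PP k z * PP k' z' = 0 := by
  simp only [PP]
  rw [smul_mul_smul_comm, ← map_mul, FF_orth k z k' z' h, map_zero, smul_zero]

theorem PP_sum (k : Fin 6) : ∑ z, PP k z = 1 := by
  have h : ∑ z, PP k z = (1 / 4 : ℂ) • cast4 (FF k 0 + FF k 1 + FF k 2 + FF k 3) := by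
    simp only [PP, Fin.sum_univ_four, map_add, smul_add]
  rw [h, FF_sum, map_nsmul, map_one, ← Nat.cast_smul_eq_nsmul ℂ, smul_smul]
  norm_num

theorem xo_bij1 : ∀ x : Fin 4, Function.Bijective (xo x) := by decide
theorem xo_bij2 : ∀ y : Fin 4, Function.Bijective (fun x => xo x y) := by decide

/-- the quantum isomorphism of the two magic square graphs -/
noncomputable def QQ (v w : Fin 6 × Fin 4) : MC := if v.1 = w.1 then PP v.1 (xo v.2 w.2) else 0

theorem QQ_rel : IsoGameRel (msGraph true) (msGraph false) QQ := by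
  refine ⟨fun v w => ⟨?_, ?_⟩, ?_, ?_, ?_⟩
  · simp only [QQ]
    split_ifs
    · exact PP_sq _ _
    · exact mul_zero _
  · simp only [QQ]
    split_ifs
    · exact PP_star _ _
    · exact star_zero _
  · rintro ⟨k, x⟩
    rw [Fintype.sum_prod_type]
    simp only [QQ]
    rw [Finset.sum_eq_single k]
    · simp only [if_true]
      rw [← PP_sum k]
      exact (xo_bij1 x).sum_comp (fun z => PP k z)
    · intro l _ hl
      simp [Ne.symm hl]
    · simp
  · rintro ⟨k, y⟩
    rw [Fintype.sum_prod_type]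
    simp only [QQ]
    rw [Finset.sum_eq_single k]
    · simp only [if_true]
      rw [← PP_sum k]
      exact (xo_bij2 y).sum_comp (fun z => PP k z)
    · intro l _ hl
      simp [hl]
    · simp
  · rintro ⟨k, x⟩ ⟨k', x'⟩ ⟨l, y⟩ ⟨l', y'⟩ hne
    simp only [QQ]
    by_cases h1 : k = l
    · by_cases h2 : k' = l'
      · subst h1 h2
        simp only [if_true]
        exact PP_orth _ _ _ _ (rel_conflict k k' x x' y y' hne)
      · rw [if_neg h2]; exact mul_zero _
    · rw [if_neg h1]; exact zero_mul _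

theorem game_nontrivial (A : Type 1) [CStarAlgebra A] (p : Fin 6 × Fin 4 → Fin 6 × Fin 4 → A)
    (hA : IsGameAlgebra (msGraph true) (msGraph false) A p) : Nontrivial A := by
  obtain ⟨φ, -⟩ := hA.2.2 MC QQ QQ_rel
  refine ⟨⟨0, 1, fun h => ?_⟩⟩
  have h1 : φ 0 = φ 1 := by rw [h]
  rw [map_zero, map_one] at h1
  exact zero_ne_one h1

end rep

section nochar

theorem no_classical : ∀ a b c d e f : Fin 4,
    ¬ (conflict true (0, a) (3, d) = false ∧ conflict true (0, a) (4, e) = false ∧
      conflict true (0, a) (5, f) = false ∧ conflict true (1, b) (3, d) = false ∧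
      conflict true (1, b) (4, e) = false ∧ conflict true (1, b) (5, f) = false ∧
      conflict true (2, c) (3, d) = false ∧ conflict true (2, c) (4, e) = false ∧
      conflict true (2, c) (5, f) = false) := by decide +kernel

theorem same_eq : ∀ (k : Fin 6) (x y : Fin 4), x ≠ y → conflict true (k, x) (k, y) = true := by
  decide +kernel

theorem zero_ok : ∀ k l : Fin 6, conflict false (k, 0) (l, 0) = false := by decide +kernel

/-- the two magic square graphs admit no classical isomorphism -/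
theorem no_char (c : Fin 6 × Fin 4 → Fin 6 × Fin 4 → ℂ)
    (hc : IsoGameRel (msGraph true) (msGraph false) c) : False := by
  have h1 : ∀ k : Fin 6, ∃ g, c g (k, 0) ≠ 0 := by
    intro k
    by_contra hcon
    push Not at hcon
    have h2 := hc.2.2.1 (k, 0)
    rw [Finset.sum_eq_zero fun g _ => hcon g] at h2
    exact zero_ne_one h2
  choose g hg using h1
  have h2 : ∀ k l, k ≠ l → g k ≠ g l ∧ conflict true (g k) (g l) = false := by
    intro k l hkl
    have h3 : SameRel (msGraph true) (msGraph false) (g k) (g l) (k, 0) (l, 0) := by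
      by_contra hne
      exact (mul_ne_zero (hg k) (hg l)) (hc.2.2.2 _ _ _ _ hne)
    obtain ⟨h4, h5⟩ := h3
    refine ⟨fun h => hkl ?_, ?_⟩
    · have := h4.1 h
      exact congrArg Prod.fst this
    · by_contra hcon
      rw [Bool.not_eq_false] at hcon
      have h6 : conflict false (k, 0) (l, 0) = true := h5.1 hcon
      rw [zero_ok] at h6
      exact Bool.noConfusion h6
  have hinj : Function.Injective fun k => (g k).1 := by
    intro k l hkl
    by_contra hne
    obtain ⟨h3, h4⟩ := h2 k l hne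
    have h5 : (g k).2 ≠ (g l).2 := fun h => h3 (Prod.ext hkl h)
    have h6 := same_eq (g k).1 _ _ h5
    have h7 : ((g k).1, (g l).2) = g l := by
      rw [show (g k).1 = (g l).1 from hkl]
    rw [h7] at h6
    have h8 : ((g k).1, (g k).2) = g k := rfl
    rw [h8, h4] at h6
    exact Bool.noConfusion h6
  have hsurj := Finite.surjective_of_injective hinj
  choose s hs using hsurj
  have hx : ∀ e e' : Fin 6, e ≠ e' → conflict true (e, (g (s e)).2) (e', (g (s e')).2) = false := by
    intro e e' hne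
    have h3 : s e ≠ s e' := by
      intro h
      apply hne
      have := hs e
      have h4 := hs e'
      rw [h] at this
      exact this.symm.trans h4
    have h4 := (h2 _ _ h3).2
    have h5 : (e, (g (s e)).2) = g (s e) := Prod.ext (hs e).symm rfl
    have h6 : (e', (g (s e')).2) = g (s e') := Prod.ext (hs e').symm rfl
    rw [h5, h6]
    exact h4
  exact no_classical (g (s 0)).2 (g (s 1)).2 (g (s 2)).2 (g (s 3)).2 (g (s 4)).2 (g (s 5)).2
    ⟨hx 0 3 (by decide), hx 0 4 (by decide), hx 0 5 (by decide), hx 1 3 (by decide),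
      hx 1 4 (by decide), hx 1 5 (by decide), hx 2 3 (by decide), hx 2 4 (by decide),
      hx 2 5 (by decide)⟩

theorem no_hom {A : Type 1} [CStarAlgebra A] (p : Fin 6 × Fin 4 → Fin 6 × Fin 4 → A)
    (hp : IsoGameRel (msGraph true) (msGraph false) p) (χ : A →⋆ₐ[ℂ] ℂ) : False := by
  refine no_char (fun g h => χ (p g h)) ?_
  obtain ⟨h1, h2, h3, h4⟩ := hp
  refine ⟨fun g h => ⟨?_, ?_⟩, fun g => ?_, fun h => ?_, fun g g' h h' hne => ?_⟩
  · simp only
    rw [← map_mul, (h1 g h).1]
  · simp only
    rw [← map_star, (h1 g h).2]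
  · simp only
    rw [← map_sum, h2 g, map_one]
  · simp only
    rw [← map_sum, h3 h, map_one]
  · simp only
    rw [← map_mul, h4 g g' h h' hne, map_zero]

end nochar

end Pool.Agent.Helper872.Iso
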